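import Mathlib

/-!
Axisymmetric flows (helper946): supersolutions for the circulation of ancient solutions.
-/

set_option autoImplicit false

open MeasureTheory Set Metric Filter Topology
open scoped ContDiff

namespace Pool.Agent.H946.AX

/-- `1 - exp (-a σ)`. -/
noncomputable def fe (a σ : ℝ) : ℝ := 1 - Real.exp (-(a * σ))

section fe
variable {a σ : ℝ}

lemma fe_hd (a σ : ℝ) : HasDerivAt (fe a) (a * Real.exp (-(a * σ))) σ := by
  have h0 : HasDerivAt (fun r : ℝ => a * r) a σ := by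
    simpa using (hasDerivAt_id σ).const_mul a
  have h1 : HasDerivAt (fun r : ℝ => -(a * r)) (-a) σ := h0.fun_neg
  exact (h1.exp.const_sub 1).congr_deriv (by ring)

lemma fe_hd2 (a σ : ℝ) : HasDerivAt (fun r => a * Real.exp (-(a * r)))
    (-(a ^ 2 * Real.exp (-(a * σ)))) σ := by
  have h0 : HasDerivAt (fun r : ℝ => a * r) a σ := by
    simpa using (hasDerivAt_id σ).const_mul a
  have h1 : HasDerivAt (fun r : ℝ => -(a * r)) (-a) σ := h0.fun_neg
  exact (h1.exp.const_mul a).congr_deriv (by ring)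

lemma fe_cd (a : ℝ) : ContDiff ℝ 2 (fe a) := by
  unfold fe
  fun_prop

lemma fe_le_one (a σ : ℝ) : fe a σ ≤ 1 := by
  unfold fe
  have := Real.exp_pos (-(a * σ))
  linarith

lemma fe_mono (ha : 0 ≤ a) : Monotone (fe a) := by
  intro x y hxy
  unfold fe
  have h1 : a * x ≤ a * y := mul_le_mul_of_nonneg_left hxy ha
  have := Real.exp_le_exp.2 (show -(a * y) ≤ -(a * x) by linarith)
  linarith

lemma fe_zero (a : ℝ) : fe a 0 = 0 := by simp [fe]

lemma fe_nonneg (ha : 0 ≤ a) (hσ : 0 ≤ σ) : 0 ≤ fe a σ := by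
  rw [← fe_zero a]
  exact fe_mono ha hσ

lemma fe_pos (ha : 0 < a) (hσ : 0 < σ) : 0 < fe a σ := by
  unfold fe
  have : Real.exp (-(a * σ)) < 1 := by
    rw [Real.exp_lt_one_iff]
    have : 0 < a * σ := mul_pos ha hσ
    linarith
  linarith

/-- The function `fe a` is a strict supersolution if `a` is large. -/
lemma fe_ineq {ν q K η : ℝ} (hν : 0 < ν) (ha : 0 < a) (hσ : η ≤ σ) (hq : -q ≤ K)
    (haη : K + ν ≤ 2 * a * η * ν) :
    4 * ν * σ * (-(a ^ 2 * Real.exp (-(a * σ)))) - 2 * q * (a * Real.exp (-(a * σ)))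
      ≤ -(2 * ν * a * Real.exp (-(a * σ))) := by
  have hE := Real.exp_pos (-(a * σ))
  have h1 : 2 * a * η * ν ≤ 2 * a * σ * ν := by gcongr
  have h2 : -q - 2 * a * σ * ν ≤ -ν := by linarith
  have h3 := mul_le_mul_of_nonneg_left h2 (show 0 ≤ 2 * a * Real.exp (-(a * σ)) by positivity)
  nlinarith

end fe

/-- The stationary part of the barrier. -/
noncomputable def gg (a Q σ₀ : ℝ) (h : ℝ → ℝ) (σ : ℝ) : ℝ :=
  Q * fe a (min σ σ₀) + (h (max σ σ₀) - h σ₀)

section gg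
variable {a Q σ₀ r₀ : ℝ} {h : ℝ → ℝ}

lemma h_hd (hr : ContDiffOn ℝ 2 h (Ioi r₀)) {σ : ℝ} (hσ : r₀ < σ) :
    HasDerivAt h (deriv h σ) σ :=
  ((hr.differentiableOn (by norm_num)) σ hσ).differentiableAt (Ioi_mem_nhds hσ) |>.hasDerivAt

lemma h_hd2 (hr : ContDiffOn ℝ 2 h (Ioi r₀)) {σ : ℝ} (hσ : r₀ < σ) :
    HasDerivAt (deriv h) (deriv (deriv h) σ) σ := by
  have hr' : ContDiffOn ℝ (1 + 1) h (Ioi r₀) := by
    rw [one_add_one_eq_two]
    exact hr
  have h1 : ContDiffOn ℝ 1 (deriv h) (Ioi r₀) :=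
    ((contDiffOn_succ_iff_deriv_of_isOpen (n := 1) isOpen_Ioi).1 hr').2.2
  exact ((h1.differentiableOn (by norm_num)) σ hσ).differentiableAt (Ioi_mem_nhds hσ)
    |>.hasDerivAt

lemma h_cont (hr : ContDiffOn ℝ 2 h (Ioi r₀)) : ContinuousOn h (Ioi r₀) := hr.continuousOn

lemma h_mono (hr : ContDiffOn ℝ 2 h (Ioi r₀)) (hp : ∀ σ, r₀ < σ → 0 < deriv h σ) :
    MonotoneOn h (Ioi r₀) := by
  apply monotoneOn_of_deriv_nonneg (convex_Ioi r₀) hr.continuousOn
  · rw [interior_Ioi]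
    exact hr.differentiableOn (by norm_num)
  · rw [interior_Ioi]
    exact fun σ hσ => (hp σ hσ).le

lemma gg_mono (ha : 0 ≤ a) (hQ : 0 ≤ Q) (h0 : r₀ < σ₀) (hr : ContDiffOn ℝ 2 h (Ioi r₀))
    (hp : ∀ σ, r₀ < σ → 0 < deriv h σ) : Monotone (gg a Q σ₀ h) := by
  intro x y hxy
  unfold gg
  have h1 : fe a (min x σ₀) ≤ fe a (min y σ₀) := fe_mono ha (min_le_min hxy le_rfl)
  have h2 : h (max x σ₀) ≤ h (max y σ₀) :=
    h_mono hr hp (h0.trans_le (le_max_right _ _)) (h0.trans_le (le_max_right _ _))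
      (max_le_max hxy le_rfl)
  have h3 := mul_le_mul_of_nonneg_left h1 hQ
  linarith

lemma gg_nonneg (ha : 0 ≤ a) (hQ : 0 ≤ Q) (hσ₀ : 0 ≤ σ₀) (h0 : r₀ < σ₀)
    (hr : ContDiffOn ℝ 2 h (Ioi r₀)) (hp : ∀ σ, r₀ < σ → 0 < deriv h σ) {σ : ℝ} (hσ : 0 ≤ σ) :
    0 ≤ gg a Q σ₀ h σ := by
  refine le_trans ?_ (gg_mono ha hQ h0 hr hp hσ)
  unfold gg
  rw [min_eq_left hσ₀, max_eq_right hσ₀, fe_zero]
  simp

lemma gg_cont (h0 : r₀ < σ₀) (hr : ContDiffOn ℝ 2 h (Ioi r₀)) : Continuous (gg a Q σ₀ h) := by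
  unfold gg
  have h1 : Continuous fun σ : ℝ => h (max σ σ₀) :=
    hr.continuousOn.comp_continuous (by fun_prop) fun σ => h0.trans_le (le_max_right _ _)
  have h2 : Continuous fun σ : ℝ => fe a (min σ σ₀) :=
    (fe_cd a).continuous.comp (by fun_prop)
  exact (continuous_const.mul h2).add (h1.sub continuous_const)

/-- A smooth majorant of `gg` that touches it at `σ` and is a supersolution. -/
lemma gg_maj {ν q K η σ : ℝ} (hν : 0 < ν) (ha : 0 < a) (hQ : 0 < Q) (h0 : r₀ < σ₀)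
    (hr : ContDiffOn ℝ 2 h (Ioi r₀))
    (hQ2 : deriv h σ₀ < Q * (a * Real.exp (-(a * σ₀)))) (hσ : η ≤ σ)
    (hK : σ ≤ σ₀ → -q ≤ K) (haη : K + ν ≤ 2 * a * η * ν)
    (hq : r₀ < σ → 2 * ν * σ * deriv (deriv h) σ ≤ q * deriv h σ) :
    ∃ (χ χ₁ : ℝ → ℝ) (c₂ : ℝ), ContDiffAt ℝ 2 χ σ ∧ (∀ᶠ r in 𝓝 σ, HasDerivAt χ (χ₁ r) r) ∧
      HasDerivAt χ₁ c₂ σ ∧ (∀ᶠ r in 𝓝 σ, gg a Q σ₀ h r ≤ χ r) ∧ χ σ = gg a Q σ₀ h σ ∧
      4 * ν * σ * c₂ - 2 * q * χ₁ σ ≤ 0 := by
  rcases le_or_gt σ σ₀ with hs | hs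
  · refine ⟨fun r => Q * fe a r, fun r => Q * (a * Real.exp (-(a * r))),
      Q * -(a ^ 2 * Real.exp (-(a * σ))), ?_, ?_, ?_, ?_, ?_, ?_⟩
    · exact (contDiff_const.mul (fe_cd a)).contDiffAt
    · exact Eventually.of_forall fun r => (fe_hd a r).const_mul Q
    · exact (fe_hd2 a σ).const_mul Q
    · -- the majorant
      have hD : ∀ᶠ r in 𝓝 σ₀, σ₀ < r → h r - h σ₀ ≤ Q * (fe a r - fe a σ₀) := by
        have h1 : HasDerivAt (fun r => Q * fe a r - h r)
            (Q * (a * Real.exp (-(a * σ₀))) - deriv h σ₀) σ₀ :=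
          ((fe_hd a σ₀).const_mul Q).sub (h_hd hr h0)
        have h2 := (hasDerivAt_iff_tendsto_slope.1 h1).eventually
          (eventually_gt_nhds (show (0 : ℝ) < _ from sub_pos.2 hQ2))
        rw [eventually_nhdsWithin_iff] at h2
        filter_upwards [h2] with r hr1 hr2
        have h3 := hr1 (ne_of_gt hr2)
        rw [slope_def_field] at h3
        have h4 : 0 < r - σ₀ := sub_pos.2 hr2
        have h5 := (div_pos_iff_of_pos_right h4).1 h3
        linarith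
      rcases lt_or_eq_of_le hs with hs' | hs'
      · filter_upwards [Iio_mem_nhds hs'] with r hr1
        have h1 : r ≤ σ₀ := le_of_lt hr1
        unfold gg
        rw [min_eq_left h1, max_eq_right h1]
        simp
      · rw [hs']
        filter_upwards [hD] with r hr1
        unfold gg
        rcases le_or_gt r σ₀ with h1 | h1
        · rw [min_eq_left h1, max_eq_right h1]
          simp
        · rw [min_eq_right h1.le, max_eq_left h1.le]
          have := hr1 h1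
          linarith
    · show Q * fe a σ = gg a Q σ₀ h σ
      unfold gg
      rw [min_eq_left hs, max_eq_right hs]
      simp
    · have h1 := fe_ineq (σ := σ) hν ha hσ (hK hs) haη
      have h2 : -(2 * ν * a * Real.exp (-(a * σ))) ≤ 0 := by
        have := Real.exp_pos (-(a * σ))
        have : 0 < 2 * ν * a * Real.exp (-(a * σ)) := by positivity
        linarith
      have h3 := mul_le_mul_of_nonneg_left (h1.trans h2) hQ.le
      show 4 * ν * σ * (Q * -(a ^ 2 * Real.exp (-(a * σ))))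
        - 2 * q * (Q * (a * Real.exp (-(a * σ)))) ≤ 0
      nlinarith
  · have hr0 : r₀ < σ := h0.trans hs
    refine ⟨fun r => Q * fe a σ₀ + (h r - h σ₀), deriv h, deriv (deriv h) σ, ?_, ?_, ?_, ?_, ?_, ?_⟩
    · exact contDiffAt_const.add ((hr.contDiffAt (Ioi_mem_nhds hr0)).sub contDiffAt_const)
    · filter_upwards [Ioi_mem_nhds hr0] with r hr1
      exact ((h_hd hr hr1).sub_const (h σ₀)).const_add _
    · exact h_hd2 hr hr0
    · filter_upwards [Ioi_mem_nhds hs] with r hr1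
      have h1 : σ₀ ≤ r := le_of_lt hr1
      unfold gg
      rw [min_eq_right h1, max_eq_left h1]
    · show Q * fe a σ₀ + (h σ - h σ₀) = gg a Q σ₀ h σ
      unfold gg
      rw [min_eq_right hs.le, max_eq_left hs.le]
    · have h1 := hq hr0
      linarith

end gg

end Pool.Agent.H946.AX
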