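import Pool.Agent.TH305.AX.BVgen
import Pool.Agent.H946_AX.L1

/-!
Axisymmetric flows (helper946): ancient solutions, inflow of recurrent type.
-/

set_option autoImplicit false

open MeasureTheory Set Metric Filter Topology
open scoped ContDiff

namespace Pool.Agent.H946.AX

open H459R3.NS W221.NS Pool.Agent.TH305.DR Pool.Agent.TH305.AX

variable {ν T : ℝ} {u : ℝ → V → V} {p : ℝ → V → ℝ}

lemma restr (h : BSol ν T u p) {T' : ℝ} (hT : T' ≤ T) : BSol ν T' u p where
  smooth_u := h.smooth_u.mono (prod_mono (Ico_subset_Ico_right hT) Subset.rfl)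
  smooth_p := h.smooth_p.mono (prod_mono (Ioo_subset_Ioo_right hT) Subset.rfl)
  divfree := fun t ht => h.divfree t ⟨ht.1, ht.2.trans_le hT⟩
  momentum := fun t ht => h.momentum t ⟨ht.1, ht.2.trans_le hT⟩
  axi := fun t ht => h.axi t ⟨ht.1, ht.2.trans_le hT⟩
  bdd := fun S hS => h.bdd S (hS.trans_le hT)

/-- The inflow is bounded by the velocity. -/
lemma inflow_le {v : V → V} {x : V} {r U : ℝ} (hr : sg x ≤ r) (hU : ‖v x‖ ≤ U) :
    -(x 0 * v x 0 + x 1 * v x 1) ≤ 2 * √r * U := by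
  obtain ⟨h0, h1⟩ := abs_le_sqrt_sg x
  have e0 : |v x 0| ≤ ‖v x‖ := norm_le_pi_norm (v x) 0
  have e1 : |v x 1| ≤ ‖v x‖ := norm_le_pi_norm (v x) 1
  have hs : √(sg x) ≤ √r := Real.sqrt_le_sqrt hr
  have hU0 : 0 ≤ U := (norm_nonneg _).trans hU
  have a0 : |x 0 * v x 0| ≤ √r * U := by
    rw [abs_mul]
    exact mul_le_mul (h0.trans hs) (e0.trans hU) (abs_nonneg _) (Real.sqrt_nonneg _)
  have a1 : |x 1 * v x 1| ≤ √r * U := by
    rw [abs_mul]
    exact mul_le_mul (h1.trans hs) (e1.trans hU) (abs_nonneg _) (Real.sqrt_nonneg _)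
  have b0 := (abs_le.1 a0).1
  have b1 := (abs_le.1 a1).1
  linarith

/-- The comparison on a long time interval. -/
theorem stage (hν : 0 < ν) (hT : 0 < T) (hsol : BSol ν T u p) {M δ η r₀ σ₀ a Q Y b K : ℝ} {h : ℝ → ℝ}
    (hM : 0 ≤ M) (hδ : 0 < δ) (hη : 0 < η) (hσ₀ : 0 < σ₀) (h0 : r₀ < σ₀) (ha : 0 < a) (hQ : 0 < Q)
    (hY : η ≤ Y) (hb : 0 < b) (hgY : 0 < gg a Q σ₀ h Y)
    (hr : ContDiffOn ℝ 2 h (Ioi r₀)) (hp : ∀ σ, r₀ < σ → 0 < deriv h σ)
    (hQ2 : deriv h σ₀ < Q * (a * Real.exp (-(a * σ₀))))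
    (haη : K + ν ≤ 2 * a * η * ν)
    (hΓ0 : ∀ x, |circ (u 0) x| ≤ M)
    (hsm : ∀ t ∈ Ico 0 T, ∀ x, sg x ≤ η → |circ (u t) x| ≤ δ)
    (hin1 : ∀ t ∈ Ico 0 T, ∀ x, sg x ≤ σ₀ → -(x 0 * u t x 0 + x 1 * u t x 1) ≤ K)
    {K' : ℝ} (hbη : K' + ν ≤ 2 * b * η * ν)
    (hin2 : ∀ t ∈ Ico 0 T, ∀ x, sg x ≤ Y → -(x 0 * u t x 0 + x 1 * u t x 1) ≤ K')
    (hcond : ∀ t ∈ Ico 0 T, ∀ x, r₀ < sg x → δ < |circ (u t) x| →
      2 * ν * sg x * deriv (deriv h) (sg x) ≤ (x 0 * u t x 0 + x 1 * u t x 1) * deriv h (sg x)) :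
    ∀ t ∈ Ico 0 T, ∀ x, |circ (u t) x| ≤ δ + M * (gg a Q σ₀ h (sg x) / gg a Q σ₀ h Y
      + 1 / fe b η * Real.exp (-(2 * ν * b * Real.exp (-(b * Y)) * t))) := by
  obtain ⟨P, hP⟩ : ∃ P : ℝ, P = 1 / fe b η := ⟨_, rfl⟩
  have hfη := fe_pos hb hη
  have hP0 : 0 < P := by rw [hP]; positivity
  obtain ⟨lam, hlam⟩ : ∃ lam : ℝ, lam = 2 * ν * b * Real.exp (-(b * Y)) := ⟨_, rfl⟩
  have hlam0 : 0 < lam := by rw [hlam]; positivity
  obtain ⟨G, hG⟩ : ∃ G : ℝ → ℝ, G = gg a Q σ₀ h := ⟨_, rfl⟩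
  rw [← hG] at hgY
  rw [← hP, ← hlam, ← hG]
  have hGm : Monotone G := by rw [hG]; exact gg_mono ha.le hQ.le h0 hr hp
  have hG0 : ∀ σ, 0 ≤ σ → 0 ≤ G σ := fun σ hσ => by
    rw [hG]
    exact gg_nonneg ha.le hQ.le hσ₀.le h0 hr hp hσ
  obtain ⟨Ψ, hΨ⟩ : ∃ Ψ : ℝ → ℝ → ℝ, Ψ = fun t σ => G σ / G Y
    + P * (Real.exp (-(lam * t)) * fe b σ) := ⟨_, rfl⟩
  have hΨ0 : ∀ t σ, 0 ≤ σ → 0 ≤ Ψ t σ := by
    intro t σ hσ
    rw [hΨ]
    have h1 := fe_nonneg hb.le hσ
    have h2 := hG0 σ hσ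
    show 0 ≤ G σ / G Y + P * (Real.exp (-(lam * t)) * fe b σ)
    positivity
  have key := cmpB hν hsol (A := M) (δ := δ) hM hδ (Φ := fun t σ => min 1 (Ψ t σ))
    (fun t _ σ hσ => le_min zero_le_one (hΨ0 t σ hσ))
    (by
      have c1 : Continuous G := by rw [hG]; exact gg_cont h0 hr
      have c2 : Continuous (fe b) := (fe_cd b).continuous
      have : Continuous fun z : ℝ × ℝ => min 1 (Ψ z.1 z.2) := by
        rw [hΨ]
        exact continuous_const.min (((c1.comp continuous_snd).div_const _).add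
          (continuous_const.mul (((Real.continuous_exp.comp (by fun_prop))).mul
            (c2.comp continuous_snd))))
      exact this.continuousOn)
    (by
      intro x
      rcases lt_or_ge η (sg x) with h1 | h1
      · have h2 : 1 ≤ Ψ 0 (sg x) := by
          rw [hΨ]
          show 1 ≤ G (sg x) / G Y + P * (Real.exp (-(lam * 0)) * fe b (sg x))
          have h3 := hG0 (sg x) (sg_nonneg x)
          have h4 : fe b η ≤ fe b (sg x) := fe_mono hb.le h1.le
          have h5 : 1 ≤ P * fe b (sg x) := by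
            rw [hP, one_div, inv_mul_eq_div, one_le_div hfη]
            exact h4
          have h6 : 0 ≤ G (sg x) / G Y := by positivity
          rw [mul_zero, neg_zero, Real.exp_zero, one_mul]
          linarith
        show |circ (u 0) x| ≤ δ + M * min 1 (Ψ 0 (sg x))
        rw [min_eq_left h2, mul_one]
        have := hΓ0 x
        linarith
      · show |circ (u 0) x| ≤ δ + M * min 1 (Ψ 0 (sg x))
        have h3 : 0 ≤ M * min 1 (Ψ 0 (sg x)) :=
          mul_nonneg hM (le_min zero_le_one (hΨ0 0 _ (sg_nonneg x)))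
        have := hsm 0 ⟨le_rfl, hT⟩ x h1
        linarith)
    (by
      intro t ht x hx hxδ
      have htI := Ioo_subset_Ico_self ht
      have hση : η < sg x := by
        by_contra hc
        push Not at hc
        exact absurd (hsm t htI x hc) (not_le.2 hxδ)
      rcases le_or_gt 1 (Ψ t (sg x)) with h1 | h1
      · refine ⟨fun _ => 1, fun _ => 0, 0, 0, fun _ => 1, ⟨contDiffAt_const,
          Eventually.of_forall fun r => hasDerivAt_const _ _, hasDerivAt_const _ _,
          Eventually.of_forall fun r => min_le_left _ _, ?_,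
          Eventually.of_forall fun r => min_le_left _ _, ?_, hasDerivAt_const _ _⟩, by simp⟩
        · show (1 : ℝ) = min 1 (Ψ t (sg x))
          rw [min_eq_left h1]
        · show (1 : ℝ) = min 1 (Ψ t (sg x))
          rw [min_eq_left h1]
      · have hlt : sg x < Y := by
          by_contra hc
          push Not at hc
          have h2 : G Y ≤ G (sg x) := hGm hc
          have h3 : 1 ≤ G (sg x) / G Y := (one_le_div hgY).2 h2
          have h4 := fe_nonneg hb.le (sg_nonneg x)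
          have h5 : Ψ t (sg x) = G (sg x) / G Y + P * (Real.exp (-(lam * t)) * fe b (sg x)) := by
            rw [hΨ]
          have h6 : 0 ≤ P * (Real.exp (-(lam * t)) * fe b (sg x)) := by positivity
          linarith
        obtain ⟨χ, χ₁, c₂, m1, m2, m3, m4, m5, m6⟩ := gg_maj (q := x 0 * u t x 0 + x 1 * u t x 1)
          (K := K) (η := η) (σ := sg x) hν ha hQ h0 hr hQ2 hση.le (fun hs => hin1 t htI x hs) haη
          (fun hs => hcond t htI x hs hxδ)
        rw [← hG] at m4 m5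
        obtain ⟨E, hE⟩ : ∃ E : ℝ, E = P * Real.exp (-(lam * t)) := ⟨_, rfl⟩
        have hE0 : 0 < E := by rw [hE]; positivity
        have hΨt : ∀ r, Ψ t r = G r / G Y + E * fe b r := by
          intro r
          rw [hΨ, hE]
          show G r / G Y + P * (Real.exp (-(lam * t)) * fe b r) = _
          ring
        refine ⟨fun r => χ r / G Y + E * fe b r,
          fun r => χ₁ r / G Y + E * (b * Real.exp (-(b * r))),
          c₂ / G Y + E * (-(b ^ 2 * Real.exp (-(b * sg x)))),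
          -(lam * (E * fe b (sg x))),
          fun τ => G (sg x) / G Y + P * (Real.exp (-(lam * τ)) * fe b (sg x)),
          ⟨?_, ?_, ?_, ?_, ?_, ?_, ?_, ?_⟩, ?_⟩
        · exact (m1.div_const _).add (contDiff_const.mul (fe_cd b)).contDiffAt
        · filter_upwards [m2] with r hr1
          exact (hr1.div_const _).add ((fe_hd b r).const_mul E)
        · exact (m3.div_const _).add ((fe_hd2 b (sg x)).const_mul E)
        · filter_upwards [m4] with r hr1
          refine (min_le_right _ _).trans ?_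
          rw [hΨt]
          have := div_le_div_of_nonneg_right hr1 hgY.le
          linarith
        · show χ (sg x) / G Y + E * fe b (sg x) = min 1 (Ψ t (sg x))
          rw [min_eq_right h1.le, hΨt, m5]
        · refine Eventually.of_forall fun τ => (min_le_right _ _).trans ?_
          rw [hΨ]
        · show G (sg x) / G Y + P * (Real.exp (-(lam * t)) * fe b (sg x)) = min 1 (Ψ t (sg x))
          rw [min_eq_right h1.le, hΨ]
        · have h2 : HasDerivAt (fun τ : ℝ => lam * τ) lam t := by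
            simpa using (hasDerivAt_id t).const_mul lam
          have h3 := (((h2.fun_neg.exp).mul_const (fe b (sg x))).const_mul P).const_add
            (G (sg x) / G Y)
          refine h3.congr_deriv ?_
          rw [hE]
          ring
        · show 4 * ν * sg x * (c₂ / G Y + E * (-(b ^ 2 * Real.exp (-(b * sg x)))))
              - 2 * (x 0 * u t x 0 + x 1 * u t x 1)
                * (χ₁ (sg x) / G Y + E * (b * Real.exp (-(b * sg x))))
              ≤ -(lam * (E * fe b (sg x)))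
          obtain ⟨q, hq⟩ : ∃ q : ℝ, q = x 0 * u t x 0 + x 1 * u t x 1 := ⟨_, rfl⟩
          have h2 := fe_ineq (σ := sg x) (q := q) (K := K') (η := η) hν hb hση.le
            (by rw [hq]; exact hin2 t htI x hlt.le) hbη
          rw [← hq] at m6 ⊢
          obtain ⟨F, hF⟩ : ∃ F : ℝ, F = Real.exp (-(b * sg x)) := ⟨_, rfl⟩
          have hFY : Real.exp (-(b * Y)) ≤ F := by
            rw [hF]
            apply Real.exp_le_exp.2
            have := mul_le_mul_of_nonneg_left hlt.le hb.le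
            linarith
          rw [← hF] at h2 ⊢
          have h3 : lam * fe b (sg x) ≤ 2 * ν * b * F := by
            have h4 := fe_le_one b (sg x)
            have h5 : lam * fe b (sg x) ≤ lam * 1 := mul_le_mul_of_nonneg_left h4 hlam0.le
            have h6 : lam ≤ 2 * ν * b * F := by
              rw [hlam]
              gcongr
            linarith
          have h7 : 4 * ν * sg x * (-(b ^ 2 * F)) - 2 * q * (b * F) ≤ -(lam * fe b (sg x)) := by
            linarith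
          have h8 := mul_le_mul_of_nonneg_left h7 hE0.le
          have h9 : (4 * ν * sg x * c₂ - 2 * q * χ₁ (sg x)) / G Y ≤ 0 :=
            div_nonpos_of_nonpos_of_nonneg m6 hgY.le
          have h10 : 4 * ν * sg x * (c₂ / G Y + E * -(b ^ 2 * F))
              - 2 * q * (χ₁ (sg x) / G Y + E * (b * F))
              = (4 * ν * sg x * c₂ - 2 * q * χ₁ (sg x)) / G Y
                + E * (4 * ν * sg x * (-(b ^ 2 * F)) - 2 * q * (b * F)) := by
            ring
          rw [h10]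
          linarith)
  intro t ht x
  have h1 := key t ht x
  refine h1.trans ?_
  have h2 : min 1 (Ψ t (sg x)) ≤ G (sg x) / G Y + P * Real.exp (-(lam * t)) := by
    refine (min_le_right _ _).trans ?_
    rw [hΨ]
    show G (sg x) / G Y + P * (Real.exp (-(lam * t)) * fe b (sg x)) ≤ _
    have h3 := fe_le_one b (sg x)
    have h4 : P * (Real.exp (-(lam * t)) * fe b (sg x)) ≤ P * (Real.exp (-(lam * t)) * 1) := by
      gcongr
    linarith
  have h5 := mul_le_mul_of_nonneg_left h2 hM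
  linarith

/-- The maximum principle. -/
theorem maxp (hν : 0 < ν) (hT : 0 < T) (hsol : BSol ν T u p) {δ : ℝ} (hδ : 0 < δ)
    (h0 : ∀ x, |circ (u 0) x| ≤ δ) : ∀ t ∈ Ico 0 T, ∀ x, |circ (u t) x| ≤ δ := by
  intro t ht x
  apply le_of_forall_pos_le_add
  intro e he
  have key := cmpB hν hsol (A := δ) (δ := e) hδ.le he (Φ := fun _ _ => 1)
    (fun t _ σ _ => zero_le_one) continuousOn_const
    (fun x => by
      show |circ (u 0) x| ≤ e + δ * 1
      have := h0 x
      linarith)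
    (fun t _ x _ _ => ⟨fun _ => 1, fun _ => 0, 0, 0, fun _ => 1, ⟨contDiffAt_const,
      Eventually.of_forall fun r => hasDerivAt_const _ _, hasDerivAt_const _ _,
      Eventually.of_forall fun r => le_rfl, rfl,
      Eventually.of_forall fun r => le_rfl, rfl, hasDerivAt_const _ _⟩, by simp⟩) t ht x
  have h1 : |circ (u t) x| ≤ e + δ * 1 := key
  linarith

/-- **Ancient solutions**: the circulation is at most `δ` if, in the distant past, the inflow at
large distances from the axis at the points where the circulation exceeds `δ` is at most the one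
for which the associated diffusion is recurrent. -/
theorem ancientR (hν : 0 < ν)
    (hsol : ∀ t₀ < 0, BSol ν (-t₀) (fun t => u (t₀ + t)) (fun t => p (t₀ + t)))
    {s : ℝ} (hs : s ≤ 0)
    (hloc : ∀ r : ℝ, ∃ U : ℝ, ∀ t < s, ∀ x, sg x ≤ r → ‖u t x‖ ≤ U) {M : ℝ}
    (hM : ∀ t < s, ∀ x, |circ (u t) x| ≤ M) {δ : ℝ} (hδ : 0 < δ)
    (hcond : ∃ (r₀ : ℝ) (h : ℝ → ℝ), ContDiffOn ℝ 2 h (Ioi r₀) ∧
      (∀ σ, r₀ < σ → 0 < deriv h σ) ∧ Tendsto h atTop atTop ∧
      ∀ t < s, ∀ x, r₀ < sg x → δ < |circ (u t) x| →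
        2 * ν * sg x * deriv (deriv h) (sg x)
          ≤ (x 0 * u t x 0 + x 1 * u t x 1) * deriv h (sg x)) :
    ∀ t < 0, ∀ x, |circ (u t) x| ≤ δ := by
  have hpast : ∀ t < s, ∀ x, |circ (u t) x| ≤ δ := by
    intro t₁ ht₁s x₁
    have ht₁ : t₁ < 0 := ht₁s.trans_le hs
    have hM0 : 0 ≤ M := (abs_nonneg _).trans (hM t₁ ht₁s x₁)
    apply le_of_forall_pos_le_add
    intro d hd
    obtain ⟨ε, hεe⟩ : ∃ ε : ℝ, ε = d / 2 := ⟨_, rfl⟩
    have hε : 0 < ε := by rw [hεe]; positivity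
    obtain ⟨r₀, h, hr, hp, htop, hc⟩ := hcond
    obtain ⟨σ₀, hσe⟩ : ∃ σ₀ : ℝ, σ₀ = max r₀ 0 + 1 := ⟨_, rfl⟩
    have hσ₀ : 0 < σ₀ := by
      have := le_max_right r₀ 0
      rw [hσe]; linarith
    have h0 : r₀ < σ₀ := by
      have := le_max_left r₀ 0
      rw [hσe]; linarith
    obtain ⟨U', hU'⟩ := hloc σ₀
    obtain ⟨U, hU0, hU⟩ : ∃ U : ℝ, 0 ≤ U ∧ ∀ t < s, ∀ x, sg x ≤ σ₀ → ‖u t x‖ ≤ U :=
      ⟨max U' 0, le_max_right _ _, fun t ht x hx => (hU' t ht x hx).trans (le_max_left _ _)⟩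
    -- the neighbourhood of the axis
    obtain ⟨η, hη, hησ, hηδ⟩ : ∃ η : ℝ, 0 < η ∧ η ≤ σ₀ ∧ 2 * √η * U ≤ δ := by
      obtain ⟨w, hw⟩ : ∃ w : ℝ, w = δ / (2 * (U + 1)) := ⟨_, rfl⟩
      have hw0 : 0 < w := by rw [hw]; positivity
      refine ⟨min σ₀ (w ^ 2), lt_min hσ₀ (by positivity), min_le_left _ _, ?_⟩
      have h1 : √(min σ₀ (w ^ 2)) ≤ w := by
        rw [Real.sqrt_le_left hw0.le]
        exact min_le_right _ _
      have h2 : 2 * w * U ≤ δ := by
        have h3 : 2 * w * (U + 1) = δ := by rw [hw]; field_simp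
        nlinarith
      calc 2 * √(min σ₀ (w ^ 2)) * U ≤ 2 * w * U := by gcongr
        _ ≤ δ := h2
    have hsm : ∀ t < s, ∀ x, sg x ≤ η → |circ (u t) x| ≤ δ := by
      intro t ht x hx
      have h1 := circ_le (u t) x
      have h2 := hU t ht x (hx.trans hησ)
      have h3 : √(sg x) ≤ √η := Real.sqrt_le_sqrt hx
      calc |circ (u t) x| ≤ 2 * √(sg x) * ‖u t x‖ := h1
        _ ≤ 2 * √η * U := by gcongr
        _ ≤ δ := hηδ
    obtain ⟨K, hK⟩ : ∃ K : ℝ, K = 2 * √σ₀ * U := ⟨_, rfl⟩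
    have hK0 : 0 ≤ K := by rw [hK]; positivity
    obtain ⟨a, hae⟩ : ∃ a : ℝ, a = (K + ν) / (2 * η * ν) := ⟨_, rfl⟩
    have ha : 0 < a := by rw [hae]; positivity
    have haη : K + ν ≤ 2 * a * η * ν := by
      rw [hae]
      apply le_of_eq
      field_simp
    obtain ⟨Q, hQe⟩ : ∃ Q : ℝ, Q = 2 * deriv h σ₀ / (a * Real.exp (-(a * σ₀))) := ⟨_, rfl⟩
    have hd0 := hp σ₀ h0
    have hQ : 0 < Q := by rw [hQe]; positivity
    have hQ2 : deriv h σ₀ < Q * (a * Real.exp (-(a * σ₀))) := by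
      rw [hQe, div_mul_cancel₀ _ (by positivity)]
      linarith
    obtain ⟨g₁, hg₁⟩ : ∃ g₁ : ℝ, g₁ = gg a Q σ₀ h (sg x₁) := ⟨_, rfl⟩
    have hg₁0 : 0 ≤ g₁ := by
      rw [hg₁]
      exact gg_nonneg ha.le hQ.le hσ₀.le h0 hr hp (sg_nonneg x₁)
    -- the outer boundary
    obtain ⟨Y, hY1, hY2⟩ : ∃ Y : ℝ, σ₀ ≤ Y ∧ M * g₁ / ε + 1 + h σ₀ ≤ h Y :=
      ((eventually_ge_atTop σ₀).and (htop.eventually_ge_atTop _)).exists
    have hgYe : M * g₁ / ε + 1 ≤ gg a Q σ₀ h Y := by
      unfold gg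
      rw [min_eq_right hY1, max_eq_left hY1]
      have := mul_nonneg hQ.le (fe_nonneg ha.le hσ₀.le)
      linarith
    have hgY : 0 < gg a Q σ₀ h Y := by
      have : 0 ≤ M * g₁ / ε := by positivity
      linarith
    obtain ⟨W', hW'⟩ := hloc Y
    obtain ⟨W, hW0, hW⟩ : ∃ U : ℝ, 0 ≤ U ∧ ∀ t < s, ∀ x, sg x ≤ Y → ‖u t x‖ ≤ U :=
      ⟨max W' 0, le_max_right _ _, fun t ht x hx => (hW' t ht x hx).trans (le_max_left _ _)⟩
    obtain ⟨K', hK'⟩ : ∃ K' : ℝ, K' = 2 * √Y * W := ⟨_, rfl⟩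
    have hK'0 : 0 ≤ K' := by rw [hK']; positivity
    obtain ⟨b, hbe⟩ : ∃ b : ℝ, b = (K' + ν) / (2 * η * ν) := ⟨_, rfl⟩
    have hb : 0 < b := by rw [hbe]; positivity
    have hbη : K' + ν ≤ 2 * b * η * ν := by
      rw [hbe]
      apply le_of_eq
      field_simp
    obtain ⟨lam, hlam⟩ : ∃ lam : ℝ, lam = 2 * ν * b * Real.exp (-(b * Y)) := ⟨_, rfl⟩
    have hlam0 : 0 < lam := by rw [hlam]; positivity
    obtain ⟨P, hP⟩ : ∃ P : ℝ, P = 1 / fe b η := ⟨_, rfl⟩
    have hfη := fe_pos hb hη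
    have hP0 : 0 < P := by rw [hP]; positivity
    -- the length of the time interval
    obtain ⟨y, hy⟩ : ∃ y : ℝ, y = M * P / ε + 1 := ⟨_, rfl⟩
    have hy0 : 0 < y := by rw [hy]; positivity
    obtain ⟨S, hS⟩ : ∃ S : ℝ, S = y / lam := ⟨_, rfl⟩
    have hS0 : 0 < S := by rw [hS]; positivity
    have hlS : lam * S = y := by rw [hS]; field_simp
    obtain ⟨t₀, ht₀⟩ : ∃ t₀ : ℝ, t₀ = t₁ - S := ⟨_, rfl⟩
    have ht₀0 : t₀ < 0 := by rw [ht₀]; linarith
    have hneg : ∀ t ∈ Ico 0 (s - t₀), t₀ + t < s := fun t ht => by linarith [ht.2]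
    have key := stage (T := s - t₀) (η := η) (r₀ := r₀) (σ₀ := σ₀) (a := a) (Q := Q) (Y := Y)
      (b := b) (K := K) (K' := K') (δ := δ) (M := M) (h := h) hν (by linarith)
      (restr (hsol t₀ ht₀0) (by linarith)) hM0 hδ hη hσ₀ h0
      ha hQ (hησ.trans hY1) hb hgY hr hp hQ2 haη
      (fun x => hM (t₀ + 0) (by linarith) x)
      (fun t ht x hx => hsm (t₀ + t) (hneg t ht) x hx)
      (fun t ht x hx => by
        rw [hK]
        exact inflow_le hx (hU (t₀ + t) (hneg t ht) x hx))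
      hbη
      (fun t ht x hx => by
        rw [hK']
        exact inflow_le hx (hW (t₀ + t) (hneg t ht) x hx))
      (fun t ht x hx hxd => hc (t₀ + t) (hneg t ht) x hx hxd)
      S ⟨hS0.le, by rw [ht₀]; linarith⟩ x₁
    have e1 : t₀ + S = t₁ := by rw [ht₀]; ring
    have key2 : |circ (u t₁) x₁| ≤ δ + M * (g₁ / gg a Q σ₀ h Y
        + P * Real.exp (-(lam * S))) := by
      rw [← e1, hg₁, hP, hlam]
      exact key
    rw [hlS] at key2
    have k1 : M * (g₁ / gg a Q σ₀ h Y) ≤ ε := by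
      rw [← mul_div_assoc, div_le_iff₀ hgY]
      have h1 : ε * (M * g₁ / ε + 1) ≤ ε * gg a Q σ₀ h Y := mul_le_mul_of_nonneg_left hgYe hε.le
      have h2 : ε * (M * g₁ / ε + 1) = M * g₁ + ε := by field_simp
      linarith
    have k2 : M * (P * Real.exp (-y)) ≤ ε := by
      have h1 : Real.exp (-y) ≤ 1 / (y + 1) := by
        rw [Real.exp_neg, ← one_div]
        exact one_div_le_one_div_of_le (by positivity) (Real.add_one_le_exp y)
      have h2 : M * P ≤ ε * y := by
        have : ε * y = M * P + ε := by rw [hy]; field_simp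
        linarith
      calc M * (P * Real.exp (-y)) ≤ M * (P * (1 / (y + 1))) := by gcongr
        _ = M * P / (y + 1) := by ring
        _ ≤ ε := by
          rw [div_le_iff₀ (by positivity)]
          linarith
    have e3 : d = 2 * ε := by rw [hεe]; ring
    rw [e3]
    linarith
  intro t ht x
  rcases lt_or_ge t s with h1 | h1
  · exact hpast t h1 x
  · have h2 := maxp hν (T := -(s - 1)) (by linarith) (hsol (s - 1) (by linarith)) hδ
      (fun y => hpast (s - 1 + 0) (by linarith) y) (t - (s - 1)) ⟨by linarith, by linarith⟩ x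
    have e : s - 1 + (t - (s - 1)) = t := by ring
    rw [← e]
    exact h2

end Pool.Agent.H946.AX
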