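import Pool.Agent.H946_AX.L2

/-!
Axisymmetric flows (helper946): the logarithmic correction.
-/

set_option autoImplicit false

open MeasureTheory Set Metric Filter Topology
open scoped ContDiff

namespace Pool.Agent.H946.AX

open H459R3.NS W221.NS Pool.Agent.TH305.DR Pool.Agent.TH305.AX

variable {ν T : ℝ} {u : ℝ → V → V} {p : ℝ → V → ℝ}

/-- `log log σ`. -/
noncomputable def ll (σ : ℝ) : ℝ := Real.log (Real.log σ)

lemma ll_hd {σ : ℝ} (hσ : 1 < σ) : HasDerivAt ll (1 / (σ * Real.log σ)) σ := by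
  have h1 := Real.hasDerivAt_log (show σ ≠ 0 by linarith)
  have h2 := h1.log (Real.log_pos hσ).ne'
  refine h2.congr_deriv ?_
  have := (Real.log_pos hσ).ne'
  have : σ ≠ 0 := by linarith
  field_simp

lemma ll_deriv {σ : ℝ} (hσ : 1 < σ) : deriv ll σ = 1 / (σ * Real.log σ) := (ll_hd hσ).deriv

lemma ll_deriv2 {σ : ℝ} (hσ : 1 < σ) :
    deriv (deriv ll) σ = -(1 / (σ * Real.log σ)) * ((1 + 1 / Real.log σ) / σ) := by
  have h0 : σ ≠ 0 := by linarith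
  have hl := Real.log_pos hσ
  have h1 : deriv ll =ᶠ[𝓝 σ] fun r => 1 / (r * Real.log r) := by
    filter_upwards [Ioi_mem_nhds hσ] with r hr
    exact ll_deriv hr
  rw [h1.deriv_eq]
  have h2 : HasDerivAt (fun r : ℝ => r * Real.log r) (1 * Real.log σ + σ * σ⁻¹) σ :=
    (hasDerivAt_id σ).mul (Real.hasDerivAt_log h0)
  have h3 : HasDerivAt (fun r : ℝ => 1 / (r * Real.log r))
      (-(1 * Real.log σ + σ * σ⁻¹) / (σ * Real.log σ) ^ 2) σ := by
    have h4 := h2.fun_inv (mul_ne_zero h0 hl.ne')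
    simpa only [one_div] using h4
  rw [h3.deriv]
  field_simp

lemma ll_cd : ContDiffOn ℝ 2 ll (Ioi 1) := by
  intro σ hσ
  have h1 : σ ≠ 0 := by
    have : (1 : ℝ) < σ := hσ
    linarith
  have h2 : Real.log σ ≠ 0 := (Real.log_pos hσ).ne'
  exact ((Real.contDiffAt_log.2 h1).log h2).contDiffWithinAt

lemma ll_top : Tendsto ll atTop atTop := Real.tendsto_log_atTop.comp Real.tendsto_log_atTop

/-- Ancient solutions: the inflow bounded by `(2 + 1 / log ρ) ν` at large distances. -/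
theorem ancientL (hν : 0 < ν)
    (hsol : ∀ t₀ < 0, BSol ν (-t₀) (fun t => u (t₀ + t)) (fun t => p (t₀ + t)))
    {s : ℝ} (hs : s ≤ 0)
    (hloc : ∀ r : ℝ, ∃ U : ℝ, ∀ t < s, ∀ x, sg x ≤ r → ‖u t x‖ ≤ U) {M : ℝ}
    (hM : ∀ t < s, ∀ x, |circ (u t) x| ≤ M) {δ : ℝ} (hδ : 0 < δ)
    (hcond : ∃ R : ℝ, ∀ t < s, ∀ x, R < √(sg x) → δ < |circ (u t) x| →
      -((2 + 1 / Real.log √(sg x)) * ν) ≤ x 0 * u t x 0 + x 1 * u t x 1) :
    ∀ t < 0, ∀ x, |circ (u t) x| ≤ δ := by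
  refine ancientR hν hsol hs hloc hM hδ ?_
  obtain ⟨R, hR⟩ := hcond
  obtain ⟨r₀, hr₀⟩ : ∃ r₀ : ℝ, r₀ = max 1 (R ^ 2) := ⟨_, rfl⟩
  have hr1 : 1 ≤ r₀ := by rw [hr₀]; exact le_max_left _ _
  have hr2 : R ^ 2 ≤ r₀ := by rw [hr₀]; exact le_max_right _ _
  refine ⟨r₀, ll, ll_cd.mono (Ioi_subset_Ioi hr1), ?_, ll_top, ?_⟩
  · intro σ hσ
    have h1 : 1 < σ := hr1.trans_lt hσ
    rw [ll_deriv h1]
    have := Real.log_pos h1
    have : 0 < σ := by linarith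
    positivity
  · intro t ht x hx hxδ
    have h1 : 1 < sg x := hr1.trans_lt hx
    have h2 : R < √(sg x) := Real.lt_sqrt_of_sq_lt (hr2.trans_lt hx)
    have h3 := hR t ht x h2 hxδ
    rw [ll_deriv h1, ll_deriv2 h1]
    obtain ⟨q, hq⟩ : ∃ q : ℝ, q = x 0 * u t x 0 + x 1 * u t x 1 := ⟨_, rfl⟩
    obtain ⟨σ, hσ⟩ : ∃ σ : ℝ, σ = sg x := ⟨_, rfl⟩
    rw [← hq] at h3 ⊢
    rw [← hσ] at h1 h3 ⊢
    have hσ0 : 0 < σ := by linarith
    have hl := Real.log_pos h1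
    have hls : Real.log √σ = Real.log σ / 2 := Real.log_sqrt hσ0.le
    rw [hls] at h3
    have e1 : (2 + 1 / (Real.log σ / 2)) * ν = 2 * ν * (1 + 1 / Real.log σ) := by
      field_simp
    rw [e1] at h3
    have h4 : 0 < 1 / (σ * Real.log σ) := by positivity
    have h5 := mul_le_mul_of_nonneg_right h3 h4.le
    have e2 : 2 * ν * σ * (-(1 / (σ * Real.log σ)) * ((1 + 1 / Real.log σ) / σ))
        = -(2 * ν * (1 + 1 / Real.log σ)) * (1 / (σ * Real.log σ)) := by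
      field_simp
    rw [e2]
    exact h5

end Pool.Agent.H946.AX
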