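import Pool.Agent.H946_AX.L3

/-!
Axisymmetric flows (helper946): the circulation at the scale of the largest velocity.
-/

set_option autoImplicit false

open MeasureTheory Set Metric Filter Topology
open scoped ContDiff

namespace Pool.Agent.H946.AX

open H459R3.NS W221.NS Pool.Agent.TH305.DR Pool.Agent.TH305.AX

variable {ν T : ℝ} {u : ℝ → V → V} {p : ℝ → V → ℝ}

lemma sc_d1 (h : ℝ → ℝ) (c : ℝ) : deriv (fun r => h (c * r)) = fun r => c * deriv h (c * r) := by
  funext r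
  have := deriv_comp_mul_left c h r
  simpa [smul_eq_mul] using this

lemma sc_d2 (h : ℝ → ℝ) (c : ℝ) :
    deriv (deriv (fun r => h (c * r))) = fun r => c * (c * deriv (deriv h) (c * r)) := by
  rw [sc_d1]
  funext r
  have h1 : deriv (fun r => c * deriv h (c * r)) r = c * deriv (fun r => deriv h (c * r)) r :=
    deriv_const_mul_field c
  rw [h1, sc_d1]

lemma gg_scale {a Q σ' q c : ℝ} {h : ℝ → ℝ} (hc : 0 ≤ c) (hcq : c * q = 1) (σ : ℝ) :
    gg (a * c) Q (σ' * q) (fun r => h (c * r)) σ = gg a Q σ' h (c * σ) := by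
  have e1 : c * min σ (σ' * q) = min (c * σ) σ' := by
    rw [mul_min_of_nonneg _ _ hc]
    congr 1
    linear_combination σ' * hcq
  have e2 : c * max σ (σ' * q) = max (c * σ) σ' := by
    rw [mul_max_of_nonneg _ _ hc]
    congr 1
    linear_combination σ' * hcq
  have e3 : c * (σ' * q) = σ' := by linear_combination σ' * hcq
  unfold gg fe
  simp only [e2, e3, mul_assoc, e1]

/-- At the scale `ℓ = ν / sup |u|` the circulation is at most `δ + ε` if the inflow at large distances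
(in units of `ℓ`) is of recurrent type at the points with circulation more than `δ`. -/
theorem quantL (hν : 0 < ν) {M δ ε : ℝ} (A R : ℝ) (hM : 0 ≤ M) (hδ : 0 < δ) (hε : 0 < ε) :
    ∃ S : ℝ, 0 < S ∧ ∀ (ℓ T : ℝ) (u : ℝ → V → V) (p : ℝ → V → ℝ), 0 < ℓ → BSol ν T u p →
      (∀ x, |circ (u 0) x| ≤ M) → (∀ t ∈ Ico 0 T, ∀ x, ‖u t x‖ ≤ ν / ℓ) →
      (∀ t ∈ Ico 0 T, ∀ x, R * ℓ < √(sg x) → δ < |circ (u t) x| →
        -((2 + 1 / Real.log (√(sg x) / ℓ)) * ν) ≤ x 0 * u t x 0 + x 1 * u t x 1) →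
      ∀ t ∈ Ico (S * ℓ ^ 2) T, ∀ x, √(sg x) ≤ A * ℓ → |circ (u t) x| ≤ δ + ε := by
  obtain ⟨r', hr'⟩ : ∃ r' : ℝ, r' = max 1 (R ^ 2) := ⟨_, rfl⟩
  have hr1 : 1 ≤ r' := by rw [hr']; exact le_max_left _ _
  have hr2 : R ^ 2 ≤ r' := by rw [hr']; exact le_max_right _ _
  obtain ⟨σ', hσ'⟩ : ∃ σ' : ℝ, σ' = r' + 1 := ⟨_, rfl⟩
  have hσ1 : 1 < σ' := by rw [hσ']; linarith
  have hσ0 : 0 < σ' := by linarith
  obtain ⟨η', hη', hησ, hηδ⟩ : ∃ η' : ℝ, 0 < η' ∧ η' ≤ σ' ∧ 2 * √η' * ν ≤ δ := by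
    refine ⟨min σ' ((δ / (2 * ν)) ^ 2), lt_min hσ0 (by positivity), min_le_left _ _, ?_⟩
    have h1 : √(min σ' ((δ / (2 * ν)) ^ 2)) ≤ δ / (2 * ν) := by
      rw [Real.sqrt_le_left (by positivity)]
      exact min_le_right _ _
    calc 2 * √(min σ' ((δ / (2 * ν)) ^ 2)) * ν ≤ 2 * (δ / (2 * ν)) * ν := by gcongr
      _ = δ := by field_simp
  obtain ⟨a, hae⟩ : ∃ a : ℝ, a = (2 * √σ' + 1) / (2 * η') := ⟨_, rfl⟩
  have ha : 0 < a := by rw [hae]; positivity
  have haη : 2 * √σ' * ν + ν = 2 * a * η' * ν := by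
    rw [hae]
    field_simp
  have hd0 : 0 < deriv ll σ' := by
    rw [ll_deriv hσ1]
    have := Real.log_pos hσ1
    positivity
  obtain ⟨Q, hQe⟩ : ∃ Q : ℝ, Q = 2 * deriv ll σ' / (a * Real.exp (-(a * σ'))) := ⟨_, rfl⟩
  have hQ : 0 < Q := by rw [hQe]; positivity
  have hQ2 : deriv ll σ' < Q * (a * Real.exp (-(a * σ'))) := by
    rw [hQe, div_mul_cancel₀ _ (by positivity)]
    linarith
  have hllp : ∀ σ, r' < σ → 0 < deriv ll σ := by
    intro σ hσ
    have h1 : 1 < σ := hr1.trans_lt hσ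
    rw [ll_deriv h1]
    have := Real.log_pos h1
    have : 0 < σ := by linarith
    positivity
  have hr0' : r' < σ' := by rw [hσ']; linarith
  have hllc : ContDiffOn ℝ 2 ll (Ioi r') := ll_cd.mono (Ioi_subset_Ioi hr1)
  obtain ⟨G, hG⟩ : ∃ G : ℝ → ℝ, G = gg a Q σ' ll := ⟨_, rfl⟩
  have hGm : Monotone G := by rw [hG]; exact gg_mono ha.le hQ.le hr0' hllc hllp
  have hG0 : ∀ σ, 0 ≤ σ → 0 ≤ G σ := fun σ hσ => by
    rw [hG]
    exact gg_nonneg ha.le hQ.le hσ0.le hr0' hllc hllp hσ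
  obtain ⟨e, hee⟩ : ∃ e : ℝ, e = ε / 2 := ⟨_, rfl⟩
  have he : 0 < e := by rw [hee]; positivity
  obtain ⟨g₁, hg₁⟩ : ∃ g₁ : ℝ, g₁ = G (A ^ 2) := ⟨_, rfl⟩
  have hg₁0 : 0 ≤ g₁ := by rw [hg₁]; exact hG0 _ (by positivity)
  obtain ⟨Y, hY1, hY2⟩ : ∃ Y : ℝ, σ' ≤ Y ∧ M * g₁ / e + 1 + ll σ' ≤ ll Y :=
    ((eventually_ge_atTop σ').and (ll_top.eventually_ge_atTop _)).exists
  have hgYe : M * g₁ / e + 1 ≤ G Y := by
    rw [hG]
    unfold gg
    rw [min_eq_right hY1, max_eq_left hY1]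
    have := mul_nonneg hQ.le (fe_nonneg ha.le hσ0.le)
    linarith
  have hgY : 0 < G Y := by
    have : 0 ≤ M * g₁ / e := by positivity
    linarith
  obtain ⟨b, hbe⟩ : ∃ b : ℝ, b = (2 * √Y + 1) / (2 * η') := ⟨_, rfl⟩
  have hb : 0 < b := by rw [hbe]; positivity
  have hbη : 2 * √Y * ν + ν = 2 * b * η' * ν := by
    rw [hbe]
    field_simp
  obtain ⟨lam, hlam⟩ : ∃ lam : ℝ, lam = 2 * ν * b * Real.exp (-(b * Y)) := ⟨_, rfl⟩
  have hlam0 : 0 < lam := by rw [hlam]; positivity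
  obtain ⟨P, hP⟩ : ∃ P : ℝ, P = 1 / fe b η' := ⟨_, rfl⟩
  have hfη := fe_pos hb hη'
  have hP0 : 0 < P := by rw [hP]; positivity
  obtain ⟨y, hy⟩ : ∃ y : ℝ, y = M * P / e + 1 := ⟨_, rfl⟩
  have hy0 : 0 < y := by rw [hy]; positivity
  obtain ⟨S, hS⟩ : ∃ S : ℝ, S = y / lam := ⟨_, rfl⟩
  have hS0 : 0 < S := by rw [hS]; positivity
  have hlS : lam * S = y := by rw [hS]; field_simp
  refine ⟨S, hS0, ?_⟩
  intro ℓ T u p hℓ hsol hΓ hu hc t ht x hx
  obtain ⟨q, hq⟩ : ∃ q : ℝ, q = ℓ ^ 2 := ⟨_, rfl⟩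
  have hq0 : 0 < q := by rw [hq]; positivity
  obtain ⟨c, hce⟩ : ∃ c : ℝ, c = 1 / q := ⟨_, rfl⟩
  have hc0 : 0 < c := by rw [hce]; positivity
  have hcq : c * q = 1 := by rw [hce]; field_simp
  have hsq : ∀ w : ℝ, √(w * q) = √w * ℓ := by
    intro w
    rw [hq, Real.sqrt_mul' _ (by positivity), Real.sqrt_sq hℓ.le]
  have htI : t ∈ Ico 0 T := ⟨le_trans (by positivity) ht.1, ht.2⟩
  have hT : 0 < T := htI.1.trans_lt htI.2
  have hcσ : ∀ w : ℝ, c * (w * q) = w := fun w => by linear_combination w * hcq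
  have hconv : ∀ σ, r' * q < σ → r' < c * σ := by
    intro σ hσ
    have := mul_lt_mul_of_pos_left hσ hc0
    rwa [hcσ] at this
  have hsc : ContDiffOn ℝ 2 (fun r => ll (c * r)) (Ioi (r' * q)) :=
    hllc.comp (f := fun r : ℝ => c * r) (by fun_prop) (fun σ hσ => hconv σ hσ)
  have key := stage (T := T) (η := η' * q) (r₀ := r' * q) (σ₀ := σ' * q) (a := a * c) (Q := Q)
    (Y := Y * q) (b := b * c) (K := 2 * √(σ' * q) * (ν / ℓ)) (K' := 2 * √(Y * q) * (ν / ℓ))
    (δ := δ) (M := M) (h := fun r => ll (c * r)) hν hT hsol hM hδ (by positivity) (by positivity)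
    (by gcongr) (by positivity) hQ (by gcongr; exact hησ.trans hY1) (by positivity)
    (by rw [gg_scale hc0.le hcq, hcσ, ← hG]; exact hgY) hsc
    (fun σ hσ => by
      rw [sc_d1]
      exact mul_pos hc0 (hllp _ (hconv σ hσ)))
    (by
      rw [sc_d1]
      show c * deriv ll (c * (σ' * q)) < Q * (a * c * Real.exp (-(a * c * (σ' * q))))
      have e1 : a * c * (σ' * q) = a * σ' := by linear_combination a * σ' * hcq
      rw [hcσ, e1]
      calc c * deriv ll σ' < c * (Q * (a * Real.exp (-(a * σ')))) :=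
            mul_lt_mul_of_pos_left hQ2 hc0
        _ = _ := by ring)
    (by
      rw [hsq]
      have e1 : 2 * (√σ' * ℓ) * (ν / ℓ) = 2 * √σ' * ν := by field_simp
      have e2 : 2 * (a * c) * (η' * q) * ν = 2 * a * η' * ν := by
        linear_combination 2 * a * η' * ν * hcq
      rw [e1, e2, haη])
    hΓ
    (fun t ht x hx => by
      have h1 := circ_le (u t) x
      have h2 := hu t ht x
      have h3 : √(sg x) ≤ √(η' * q) := Real.sqrt_le_sqrt hx
      rw [hsq] at h3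
      calc |circ (u t) x| ≤ 2 * √(sg x) * ‖u t x‖ := h1
        _ ≤ 2 * (√η' * ℓ) * (ν / ℓ) := by gcongr
        _ = 2 * √η' * ν := by field_simp
        _ ≤ δ := hηδ)
    (fun t ht x hx => inflow_le hx (hu t ht x))
    (by
      rw [hsq]
      have e1 : 2 * (√Y * ℓ) * (ν / ℓ) = 2 * √Y * ν := by field_simp
      have e2 : 2 * (b * c) * (η' * q) * ν = 2 * b * η' * ν := by
        linear_combination 2 * b * η' * ν * hcq
      rw [e1, e2, hbη])
    (fun t ht x hx => inflow_le hx (hu t ht x))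
    (fun t ht x hx hxδ => by
      rw [sc_d2, sc_d1]
      show 2 * ν * sg x * (c * (c * deriv (deriv ll) (c * sg x)))
        ≤ (x 0 * u t x 0 + x 1 * u t x 1) * (c * deriv ll (c * sg x))
      obtain ⟨w, hw⟩ : ∃ w : ℝ, w = c * sg x := ⟨_, rfl⟩
      have hw1 : r' < w := by rw [hw]; exact hconv _ hx
      have h1 : 1 < w := hr1.trans_lt hw1
      have hsw : sg x = w * q := by rw [hw]; linear_combination -(sg x) * hcq
      have hsx : √(sg x) = √w * ℓ := by rw [hsw, hsq]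
      have h2 : R * ℓ < √(sg x) := by
        rw [hsx]
        have : R < √w := Real.lt_sqrt_of_sq_lt (hr2.trans_lt hw1)
        gcongr
      have h3 := hc t ht x h2 hxδ
      rw [hsx, mul_div_cancel_right₀ _ hℓ.ne'] at h3
      rw [← hw, ll_deriv h1, ll_deriv2 h1]
      obtain ⟨z, hz⟩ : ∃ z : ℝ, z = x 0 * u t x 0 + x 1 * u t x 1 := ⟨_, rfl⟩
      rw [← hz] at h3 ⊢
      rw [hsw]
      have hw0 : 0 < w := by linarith
      have hl := Real.log_pos h1
      have hls : Real.log √w = Real.log w / 2 := Real.log_sqrt hw0.le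
      rw [hls] at h3
      have e1 : (2 + 1 / (Real.log w / 2)) * ν = 2 * ν * (1 + 1 / Real.log w) := by
        field_simp
      rw [e1] at h3
      have h4 : 0 < c * (1 / (w * Real.log w)) := by positivity
      have h5 := mul_le_mul_of_nonneg_right h3 h4.le
      have e2 : 2 * ν * (w * q) * (c * (c * (-(1 / (w * Real.log w)) * ((1 + 1 / Real.log w) / w))))
          = (c * q) * (-(2 * ν * (1 + 1 / Real.log w)) * (c * (1 / (w * Real.log w)))) := by
        field_simp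
      rw [e2, hcq, one_mul]
      exact h5)
    t htI x
  rw [gg_scale hc0.le hcq, gg_scale hc0.le hcq, hcσ, ← hG] at key
  have e1 : fe (b * c) (η' * q) = fe b η' := by
    unfold fe
    have : b * c * (η' * q) = b * η' := by linear_combination b * η' * hcq
    rw [this]
  have e2 : b * c * (Y * q) = b * Y := by linear_combination b * Y * hcq
  have e3 : 2 * ν * (b * c) * Real.exp (-(b * Y)) * t = lam * (c * t) := by rw [hlam]; ring
  rw [e1, e2, e3, ← hP] at key
  have hsx2 : c * sg x ≤ A ^ 2 := by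
    have h1 : sg x ≤ (A * ℓ) ^ 2 := by
      have h2 := Real.sqrt_nonneg (sg x)
      calc sg x = √(sg x) ^ 2 := (Real.sq_sqrt (sg_nonneg x)).symm
        _ ≤ (A * ℓ) ^ 2 := by gcongr
    have h3 := mul_le_mul_of_nonneg_left h1 hc0.le
    have h4 : c * (A * ℓ) ^ 2 = A ^ 2 := by
      rw [mul_pow, ← hq]
      linear_combination A ^ 2 * hcq
    linarith
  have hg2 : G (c * sg x) ≤ g₁ := by rw [hg₁]; exact hGm hsx2
  have hct : S ≤ c * t := by
    have h1 := mul_le_mul_of_nonneg_left ht.1 hc0.le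
    rw [← hq] at h1
    have h2 : c * (S * q) = S := hcσ S
    linarith
  have hex : Real.exp (-(lam * (c * t))) ≤ Real.exp (-y) := by
    apply Real.exp_le_exp.2
    have := mul_le_mul_of_nonneg_left hct hlam0.le
    linarith
  have k1 : M * (G (c * sg x) / G Y) ≤ e := by
    have h0 : M * (G (c * sg x) / G Y) ≤ M * (g₁ / G Y) := by gcongr
    refine h0.trans ?_
    rw [← mul_div_assoc, div_le_iff₀ hgY]
    have h1 : e * (M * g₁ / e + 1) ≤ e * G Y := mul_le_mul_of_nonneg_left hgYe he.le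
    have h2 : e * (M * g₁ / e + 1) = M * g₁ + e := by field_simp
    linarith
  have k2 : M * (P * Real.exp (-(lam * (c * t)))) ≤ e := by
    have h1 : Real.exp (-y) ≤ 1 / (y + 1) := by
      rw [Real.exp_neg, ← one_div]
      exact one_div_le_one_div_of_le (by positivity) (Real.add_one_le_exp y)
    have h2 : M * P ≤ e * y := by
      have : e * y = M * P + e := by rw [hy]; field_simp
      linarith
    calc M * (P * Real.exp (-(lam * (c * t)))) ≤ M * (P * (1 / (y + 1))) := by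
          gcongr
          exact hex.trans h1
      _ = M * P / (y + 1) := by ring
      _ ≤ e := by
        rw [div_le_iff₀ (by positivity)]
        linarith
  have e4 : ε = 2 * e := by rw [hee]; ring
  rw [e4]
  linarith

end Pool.Agent.H946.AX
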