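import Mathlib

/-!
The logarithmic barrier (helper946).
-/

set_option autoImplicit false

open MeasureTheory Set Metric Filter Topology
open scoped ContDiff

namespace Pool.Agent.H946.AX

/-- `(log (1 / σ)) ^ (-κ)`. -/
noncomputable def lb (κ σ : ℝ) : ℝ := (-Real.log σ) ^ (-κ)

/-- Its derivative. -/
noncomputable def lb₁ (κ σ : ℝ) : ℝ := κ * ((-Real.log σ) ^ (-κ - 1) * σ⁻¹)

/-- Its second derivative. -/
noncomputable def lb₂ (κ σ : ℝ) : ℝ :=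
  κ * ((κ + 1) * ((-Real.log σ) ^ (-κ - 2) * σ⁻¹) * σ⁻¹ - (-Real.log σ) ^ (-κ - 1) * (σ ^ 2)⁻¹)

variable {κ σ : ℝ}

lemma nl_pos (h0 : 0 < σ) (h1 : σ < 1) : 0 < -Real.log σ := by
  have := Real.log_neg h0 h1
  linarith

lemma lb_pos (h0 : 0 < σ) (h1 : σ < 1) : 0 < lb κ σ := Real.rpow_pos_of_pos (nl_pos h0 h1) _

lemma lb_zero (hκ : 0 < κ) : lb κ 0 = 0 := by
  unfold lb
  rw [Real.log_zero, neg_zero, Real.zero_rpow (by linarith)]

lemma nl_hd (h0 : 0 < σ) : HasDerivAt (fun r => -Real.log r) (-σ⁻¹) σ :=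
  (Real.hasDerivAt_log h0.ne').fun_neg

lemma lb_hd (h0 : 0 < σ) (h1 : σ < 1) : HasDerivAt (lb κ) (lb₁ κ σ) σ := by
  have h2 := (nl_hd h0).rpow_const (p := -κ) (Or.inl (nl_pos h0 h1).ne')
  refine h2.congr_deriv ?_
  unfold lb₁
  ring

lemma lb_hd2 (h0 : 0 < σ) (h1 : σ < 1) : HasDerivAt (lb₁ κ) (lb₂ κ σ) σ := by
  have h2 := (nl_hd h0).rpow_const (p := -κ - 1) (Or.inl (nl_pos h0 h1).ne')
  have h3 := (h2.mul (hasDerivAt_inv h0.ne')).const_mul κ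
  refine h3.congr_deriv ?_
  unfold lb₂
  have e : -κ - 1 - 1 = -κ - 2 := by ring
  rw [e]
  ring

lemma lb_cd (h0 : 0 < σ) (h1 : σ < 1) : ContDiffAt ℝ 2 (lb κ) σ := by
  unfold lb
  exact ((Real.contDiffAt_log.2 h0.ne').neg).rpow_const_of_ne (nl_pos h0 h1).ne'

lemma lb₁_pos (hκ : 0 < κ) (h0 : 0 < σ) (h1 : σ < 1) : 0 < lb₁ κ σ := by
  have h2 := nl_pos h0 h1
  unfold lb₁
  positivity

/-- The differential inequality. -/
lemma lb_ineq {ν q B : ℝ} (hκ : 0 < κ) (h0 : 0 < σ) (h1 : σ < 1)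
    (hq : -(2 * ν) + 2 * ν * (κ + 1) / (-Real.log σ) - B * σ * (-Real.log σ) / 2 ≤ q) :
    4 * ν * σ * lb₂ κ σ - 2 * q * lb₁ κ σ ≤ κ * B * lb κ σ := by
  obtain ⟨L, hL⟩ : ∃ L : ℝ, L = -Real.log σ := ⟨_, rfl⟩
  have hL0 : 0 < L := by rw [hL]; exact nl_pos h0 h1
  obtain ⟨w, hw⟩ : ∃ w : ℝ, w = L ^ (-κ - 1) := ⟨_, rfl⟩
  have hw0 : 0 < w := by rw [hw]; positivity
  have e1 : L ^ (-κ - 2) = w / L := by
    rw [hw, ← Real.rpow_sub_one hL0.ne']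
    congr 1
    ring
  have e2 : L ^ (-κ) = w * L := by
    rw [hw, ← Real.rpow_add_one hL0.ne']
    congr 1
    ring
  rw [← hL] at hq
  unfold lb₂ lb₁ lb
  rw [← hL, e1, e2, ← hw]
  have h2 : 0 ≤ 2 * (κ * (w * σ⁻¹)) := by positivity
  have h3 := mul_le_mul_of_nonneg_right hq h2
  have e3 : 4 * ν * σ * (κ * ((κ + 1) * (w / L * σ⁻¹) * σ⁻¹ - w * (σ ^ 2)⁻¹))
      = (-(2 * ν) + 2 * ν * (κ + 1) / L) * (2 * (κ * (w * σ⁻¹))) := by
    field_simp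
    ring
  have e4 : B * σ * L / 2 * (2 * (κ * (w * σ⁻¹))) = κ * B * (w * L) := by
    field_simp
  rw [e3]
  nlinarith

/-- Continuity on `[0, 1)`. -/
lemma lb_cont (hκ : 0 < κ) : ContinuousOn (lb κ) (Ico 0 1) := by
  intro σ hσ
  rcases eq_or_lt_of_le hσ.1 with h | h
  · subst h
    have h1 : Tendsto (lb κ) (𝓝[>] 0) (𝓝 0) := by
      have h2 : Tendsto (fun r : ℝ => -Real.log r) (𝓝[>] 0) atTop :=
        tendsto_neg_atBot_atTop.comp Real.tendsto_log_nhdsGT_zero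
      exact (tendsto_rpow_neg_atTop hκ).comp h2
    have h3 : ContinuousWithinAt (lb κ) (Ioi 0) 0 := by
      unfold ContinuousWithinAt
      rw [lb_zero hκ]
      exact h1
    have h4 : ContinuousWithinAt (lb κ) (Ici 0) 0 := by
      rw [← Ioi_insert, continuousWithinAt_insert_self]
      exact h3
    exact h4.mono Ico_subset_Ici_self
  · exact (lb_hd h hσ.2).continuousAt.continuousWithinAt

lemma lb_mono (hκ : 0 < κ) {S : ℝ} {x y : ℝ} (hx : 0 ≤ x) (hxy : x ≤ y) (hS : S < 1)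
    (hy : y ≤ S) : lb κ x ≤ lb κ y := by
  rcases eq_or_lt_of_le hx with h | h
  · rw [← h, lb_zero hκ]
    rcases eq_or_lt_of_le (hx.trans hxy) with h2 | h2
    · rw [← h2, lb_zero hκ]
    · exact (lb_pos h2 (hy.trans_lt hS)).le
  · have hy1 : y < 1 := hy.trans_lt hS
    have hy0 : 0 < y := h.trans_le hxy
    have h2 := nl_pos hy0 hy1
    have h3 := Real.log_le_log h hxy
    unfold lb
    exact Real.rpow_le_rpow_of_nonpos h2 (by linarith) (by linarith)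

/-- `√σ ≤ (2 κ) ^ κ (log (1 / σ)) ^ (-κ)`. -/
lemma sqrt_le_lb (hκ : 0 < κ) (h0 : 0 < σ) (h1 : σ < 1) : √σ ≤ (2 * κ) ^ κ * lb κ σ := by
  have hL := nl_pos h0 h1
  have h2 := Real.log_le_rpow_div (x := 1 / σ) (ε := 1 / (2 * κ)) (by positivity) (by positivity)
  rw [one_div σ, Real.log_inv] at h2
  have h3 : (-Real.log σ) ^ κ ≤ (2 * κ) ^ κ * (σ⁻¹ ^ (1 / (2 * κ))) ^ κ := by
    rw [← Real.mul_rpow (by positivity) (by positivity)]
    apply Real.rpow_le_rpow hL.le _ hκ.le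
    calc -Real.log σ ≤ σ⁻¹ ^ (1 / (2 * κ)) / (1 / (2 * κ)) := h2
      _ = 2 * κ * σ⁻¹ ^ (1 / (2 * κ)) := by field_simp
  have h4 : (σ⁻¹ ^ (1 / (2 * κ))) ^ κ = (√σ)⁻¹ := by
    rw [← Real.rpow_mul (by positivity)]
    have : 1 / (2 * κ) * κ = 1 / 2 := by field_simp
    rw [this, ← Real.sqrt_eq_rpow, Real.sqrt_inv]
  rw [h4] at h3
  have h5 : 0 < √σ := Real.sqrt_pos.2 h0
  have h6 : 0 < (-Real.log σ) ^ κ := by positivity
  unfold lb
  rw [Real.rpow_neg hL.le, ← div_eq_mul_inv, le_div_iff₀ h6]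
  have h7 := mul_le_mul_of_nonneg_left h3 h5.le
  have h8 : √σ * ((2 * κ) ^ κ * (√σ)⁻¹) = (2 * κ) ^ κ := by field_simp
  linarith

end Pool.Agent.H946.AX
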