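import Pool.Agent.H946_AX.L2
import Pool.Agent.H946_AX.L5
import Pool.Agent.H946_AX.L6

/-!
Axisymmetric flows (helper946): the logarithmic modulus of the circulation.
-/

set_option autoImplicit false

open MeasureTheory Set Metric Filter Topology
open scoped ContDiff

namespace Pool.Agent.H946.AX

open H459R3.NS W221.NS Pool.Agent.TH305.DR Pool.Agent.TH305.AX

variable {ν T : ℝ} {u : ℝ → V → V} {p : ℝ → V → ℝ}

lemma prim_nn {b B : ℝ → ℝ} (hb0 : b 0 = 0) (hbc : ContinuousOn b (Ico 0 T))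
    (hb : ∀ t ∈ Ioo 0 T, HasDerivAt b (B t) t) (hB : ∀ t ∈ Ioo 0 T, 0 ≤ B t) :
    ∀ t ∈ Ico 0 T, 0 ≤ b t := by
  intro t ht
  have hT : 0 < T := ht.1.trans_lt ht.2
  have hm : MonotoneOn b (Ico 0 T) := by
    apply monotoneOn_of_deriv_nonneg (convex_Ico 0 T) hbc
    · rw [interior_Ico]
      exact fun s hs => (hb s hs).differentiableAt.differentiableWithinAt
    · rw [interior_Ico]
      intro s hs
      rw [(hb s hs).deriv]
      exact hB s hs
  rw [← hb0]
  exact hm ⟨le_rfl, hT⟩ ht ht.1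

lemma log_half {σ : ℝ} (h0 : 0 < σ) : Real.log (1 / √σ) = -Real.log σ / 2 := by
  rw [one_div, Real.log_inv, Real.log_sqrt h0.le]
  ring

lemma lb_half {κ σ : ℝ} (h0 : 0 < σ) (h1 : σ < 1) :
    Real.log (1 / √σ) ^ (-κ) = 2 ^ κ * lb κ σ := by
  have hL := nl_pos h0 h1
  rw [log_half h0, Real.div_rpow hL.le (by norm_num), Real.rpow_neg (by norm_num : (0 : ℝ) ≤ 2)]
  unfold lb
  field_simp

/-- The logarithmic modulus. -/
theorem logIn (hν : 0 < ν) (h : BSol ν T u p) {κ ρ₀ K M : ℝ} (hκ : 0 < κ) (hρ : 0 < ρ₀)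
    (hρ1 : ρ₀ < 1) (hK : 0 ≤ K) {b B : ℝ → ℝ} (hb0 : b 0 = 0) (hbc : ContinuousOn b (Ico 0 T))
    (hb : ∀ t ∈ Ioo 0 T, HasDerivAt b (B t) t) (hB : ∀ t ∈ Ioo 0 T, 0 ≤ B t)
    (hM : ∀ x, |circ (u 0) x| ≤ M)
    (hcond : ∀ t ∈ Ioo 0 T, ∀ x, 0 < sg x → √(sg x) < ρ₀ →
      K * Real.log (1 / √(sg x)) ^ (-κ) < |circ (u t) x| →
      -((2 - (κ + 1) / Real.log (1 / √(sg x))) * ν) - B t * (sg x * Real.log (1 / √(sg x)))
        ≤ x 0 * u t x 0 + x 1 * u t x 1) :
    ∃ C : ℝ, 0 ≤ C ∧ ∀ t ∈ Ico 0 T, ∀ x, 0 < sg x → √(sg x) < ρ₀ →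
      |circ (u t) x| ≤ C * Real.exp (κ * b t) * Real.log (1 / √(sg x)) ^ (-κ) := by
  rcases le_or_gt T 0 with hT | hT
  · exact ⟨0, le_rfl, fun t ht => absurd (ht.1.trans_lt ht.2) (not_lt.2 hT)⟩
  have hM0 : 0 ≤ M := (abs_nonneg _).trans (hM 0)
  obtain ⟨U, hU0, hU⟩ := h.u_bdd hT
  obtain ⟨S, hS⟩ : ∃ S : ℝ, S = ρ₀ ^ 2 := ⟨_, rfl⟩
  have hS0 : 0 < S := by rw [hS]; positivity
  have hS1 : S < 1 := by rw [hS]; nlinarith
  have hlS := lb_pos (κ := κ) hS0 hS1
  obtain ⟨A, hAe⟩ : ∃ A : ℝ, A = max (K * 2 ^ κ) (max (M / lb κ S) (2 * U * (2 * κ) ^ κ)) :=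
    ⟨_, rfl⟩
  have hA1 : K * 2 ^ κ ≤ A := by rw [hAe]; exact le_max_left _ _
  have hA2 : M / lb κ S ≤ A := by
    rw [hAe]; exact (le_max_left _ _).trans (le_max_right _ _)
  have hA3 : 2 * U * (2 * κ) ^ κ ≤ A := by
    rw [hAe]; exact (le_max_right _ _).trans (le_max_right _ _)
  have hA : 0 ≤ A := le_trans (by positivity) hA1
  have hbn := prim_nn hb0 hbc hb hB
  have hE1 : ∀ t ∈ Ico 0 T, 1 ≤ Real.exp (κ * b t) := fun t ht =>
    Real.one_le_exp (mul_nonneg hκ.le (hbn t ht))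
  have hln : ∀ σ, 0 ≤ σ → 0 ≤ lb κ (min σ S) := by
    intro σ hσ
    rw [← lb_zero hκ]
    exact lb_mono hκ le_rfl (le_min hσ hS0.le) hS1 (min_le_right _ _)
  obtain ⟨Φ, hΦ⟩ : ∃ Φ : ℝ → ℝ → ℝ, Φ = fun t σ => Real.exp (κ * b t) * lb κ (min σ S) :=
    ⟨_, rfl⟩
  have hΦ0 : ∀ t ∈ Ico 0 T, ∀ σ, 0 ≤ σ → 0 ≤ Φ t σ := by
    intro t _ σ hσ
    rw [hΦ]
    exact mul_nonneg (Real.exp_pos _).le (hln σ hσ)
  have hout : ∀ t ∈ Ico 0 T, ∀ σ, S ≤ σ → M ≤ A * Φ t σ := by
    intro t ht σ hσ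
    rw [hΦ]
    show M ≤ A * (Real.exp (κ * b t) * lb κ (min σ S))
    rw [min_eq_right hσ]
    have h1 : M ≤ A * lb κ S := (div_le_iff₀ hlS).1 hA2
    have h2 : A * (1 * lb κ S) ≤ A * (Real.exp (κ * b t) * lb κ S) := by
      have := hE1 t ht
      gcongr
    rw [one_mul] at h2
    exact h1.trans h2
  have hfin : ∀ δ > 0, ∀ t ∈ Ico 0 T, ∀ x, |circ (u t) x| ≤ δ + A * Φ t (sg x) := by
    intro δ hδ
    refine cmpS hν h hA hδ hΦ0 ?_ ?_ ?_
    · rw [hΦ]
      have c1 : ContinuousOn (fun z : ℝ × ℝ => b z.1) (Ico 0 T ×ˢ Ici 0) :=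
        hbc.comp continuous_fst.continuousOn fun z hz => hz.1
      have c2 : ContinuousOn (fun z : ℝ × ℝ => lb κ (min z.2 S)) (Ico 0 T ×ˢ Ici 0) :=
        (lb_cont hκ).comp (f := fun z : ℝ × ℝ => min z.2 S) (by fun_prop)
          fun z hz => ⟨le_min hz.2 hS0.le, (min_le_right _ _).trans_lt hS1⟩
      exact ((continuousOn_const.mul c1).rexp).mul c2
    · intro x
      rcases le_or_gt S (sg x) with h1 | h1
      · have h2 := hout 0 ⟨le_rfl, hT⟩ (sg x) h1
        have := hM x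
        linarith
      · have h2 : |circ (u 0) x| ≤ 2 * √(sg x) * U := by
          refine (circ_le (u 0) x).trans ?_
          have := hU 0 ⟨le_rfl, le_rfl⟩ x
          gcongr
        have h3 : 2 * √(sg x) * U ≤ A * Φ 0 (sg x) := by
          rw [hΦ]
          show 2 * √(sg x) * U ≤ A * (Real.exp (κ * b 0) * lb κ (min (sg x) S))
          rw [hb0, mul_zero, Real.exp_zero, one_mul, min_eq_left h1.le]
          rcases eq_or_lt_of_le (sg_nonneg x) with h4 | h4
          · rw [← h4, Real.sqrt_zero, lb_zero hκ]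
            simp
          · have h5 := sqrt_le_lb hκ h4 (h1.trans hS1)
            have h6 := lb_pos (κ := κ) h4 (h1.trans hS1)
            calc 2 * √(sg x) * U ≤ 2 * ((2 * κ) ^ κ * lb κ (sg x)) * U := by gcongr
              _ = 2 * U * (2 * κ) ^ κ * lb κ (sg x) := by ring
              _ ≤ A * lb κ (sg x) := by gcongr
        linarith
    · intro t ht x hx hxA
      have htI := Ioo_subset_Ico_self ht
      have hlt : sg x < S := by
        by_contra hc
        push Not at hc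
        have h1 := hout t htI (sg x) hc
        have h2 := maxp hν hT h (δ := M + δ) (by linarith)
          (fun y => (hM y).trans (by linarith)) t htI x
        linarith
      have hs1 : sg x < 1 := hlt.trans hS1
      obtain ⟨E, hE⟩ : ∃ E : ℝ, E = Real.exp (κ * b t) := ⟨_, rfl⟩
      have hE0 : 1 ≤ E := by rw [hE]; exact hE1 t htI
      have hEp : 0 < E := by linarith
      have hΦx : Φ t (sg x) = E * lb κ (sg x) := by
        rw [hΦ, hE]
        show Real.exp (κ * b t) * lb κ (min (sg x) S) = _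
        rw [min_eq_left hlt.le]
      have hlx := lb_pos (κ := κ) hx hs1
      have hρx : √(sg x) < ρ₀ := by
        rw [Real.sqrt_lt' hρ, ← hS]
        exact hlt
      have hbig : K * Real.log (1 / √(sg x)) ^ (-κ) < |circ (u t) x| := by
        rw [lb_half hx hs1]
        rw [hΦx] at hxA
        have h1 : K * (2 ^ κ * lb κ (sg x)) ≤ A * (E * lb κ (sg x)) := by
          calc K * (2 ^ κ * lb κ (sg x)) = (K * 2 ^ κ) * (1 * lb κ (sg x)) := by ring
            _ ≤ A * (E * lb κ (sg x)) := by gcongr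
        linarith
      have hc := hcond t ht x hx hρx hbig
      obtain ⟨q, hq⟩ : ∃ q : ℝ, q = x 0 * u t x 0 + x 1 * u t x 1 := ⟨_, rfl⟩
      rw [← hq] at hc ⊢
      have hL := nl_pos hx hs1
      have hin := lb_ineq (κ := κ) (ν := ν) (q := q) (B := B t) hκ hx hs1 (by
        rw [log_half hx] at hc
        have e1 : (2 - (κ + 1) / (-Real.log (sg x) / 2)) * ν
            = 2 * ν - 2 * ν * (κ + 1) / (-Real.log (sg x)) := by
          field_simp
        rw [e1] at hc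
        have e2 : B t * (sg x * (-Real.log (sg x) / 2))
            = B t * sg x * (-Real.log (sg x)) / 2 := by ring
        rw [e2] at hc
        linarith)
      refine ⟨fun r => E * lb κ r, fun r => E * lb₁ κ r, E * lb₂ κ (sg x),
        κ * B t * (E * lb κ (sg x)), fun τ => Real.exp (κ * b τ) * lb κ (sg x),
        ⟨?_, ?_, ?_, ?_, ?_, ?_, ?_, ?_⟩, ?_⟩
      · exact contDiffAt_const.mul (lb_cd hx hs1)
      · filter_upwards [Ioo_mem_nhds hx hs1] with r hr
        exact (lb_hd hr.1 hr.2).const_mul E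
      · exact (lb_hd2 hx hs1).const_mul E
      · filter_upwards [Iio_mem_nhds hlt] with r hr
        have hr' : r < S := hr
        rw [hΦ, hE]
        show Real.exp (κ * b t) * lb κ (min r S) ≤ Real.exp (κ * b t) * lb κ r
        rw [min_eq_left hr'.le]
      · rw [hΦx]
      · refine Eventually.of_forall fun τ => ?_
        rw [hΦ]
        show Real.exp (κ * b τ) * lb κ (min (sg x) S) ≤ Real.exp (κ * b τ) * lb κ (sg x)
        rw [min_eq_left hlt.le]
      · rw [hΦx, hE]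
      · have h1 := (((hb t ht).const_mul κ).exp).mul_const (lb κ (sg x))
        refine h1.congr_deriv ?_
        rw [hE]
        ring
      · show 4 * ν * sg x * (E * lb₂ κ (sg x)) - 2 * q * (E * lb₁ κ (sg x))
          ≤ κ * B t * (E * lb κ (sg x))
        have h1 := mul_le_mul_of_nonneg_left hin hEp.le
        have e1 : 4 * ν * sg x * (E * lb₂ κ (sg x)) - 2 * q * (E * lb₁ κ (sg x))
            = E * (4 * ν * sg x * lb₂ κ (sg x) - 2 * q * lb₁ κ (sg x)) := by ring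
        have e2 : κ * B t * (E * lb κ (sg x)) = E * (κ * B t * lb κ (sg x)) := by ring
        rw [e1, e2]
        exact h1
  refine ⟨A / 2 ^ κ, by positivity, fun t ht x hx hxρ => ?_⟩
  have hlt : sg x < S := by
    rw [hS]
    exact (Real.sqrt_lt' hρ).1 hxρ
  have h1 : |circ (u t) x| ≤ A * Φ t (sg x) := by
    apply le_of_forall_pos_le_add
    intro δ hδ
    have := hfin δ hδ t ht x
    linarith
  refine h1.trans (le_of_eq ?_)
  rw [lb_half hx (hlt.trans hS1), hΦ]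
  show A * (Real.exp (κ * b t) * lb κ (min (sg x) S)) = _
  rw [min_eq_left hlt.le]
  field_simp

end Pool.Agent.H946.AX
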